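import Pool.Agent.E8helper19.QC.Stm

/-!
Project QC: existence of the fixed point (S_EX).
-/

set_option autoImplicit false
open MeasureTheory Filter Topology
open scoped ENNReal

namespace Pool.Agent.E8helper19.QC

noncomputable section

variable {X : Type*} [MeasurableSpace X] {ν : Measure X}

/-- Gibbs' variational inequality -/
lemma gibbs {h f : X → ℝ} (ih : Integrable (fun x => Real.exp (h x)) ν)
    (h1 : ∫ x, Real.exp (h x) ∂ν = 1) (jf : Integrable (fun x => Real.exp (f x)) ν)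
    (ifh : Integrable (fun x => f x * Real.exp (h x)) ν)
    (ihh : Integrable (fun x => h x * Real.exp (h x)) ν) :
    ∫ x, f x * Real.exp (h x) ∂ν ≤
      (∫ x, h x * Real.exp (h x) ∂ν) + Real.log (∫ x, Real.exp (f x) ∂ν) := by
  obtain ⟨W, hW⟩ : ∃ W : ℝ, W = ∫ x, Real.exp (f x) ∂ν := ⟨_, rfl⟩
  have ne : NeZero ν := ⟨fun h0 => by rw [h0, integral_zero_measure] at h1; norm_num at h1⟩
  have W0 : 0 < W := by rw [hW]; exact integral_exp_pos jf
  rw [← hW]
  have pt : ∀ x, f x * Real.exp (h x) ≤ h x * Real.exp (h x) + Real.log W * Real.exp (h x) +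
      (Real.exp (f x) * W⁻¹ - Real.exp (h x)) := by
    intro x
    have e1 := Real.add_one_le_exp (f x - h x - Real.log W)
    have e2 := mul_le_mul_of_nonneg_right e1 (Real.exp_pos (h x)).le
    have e3 : Real.exp (f x - h x - Real.log W) * Real.exp (h x) = Real.exp (f x) * W⁻¹ := by
      rw [← Real.exp_add]
      have : f x - h x - Real.log W + h x = f x + -Real.log W := by ring
      rw [this, Real.exp_add, Real.exp_neg, Real.exp_log W0]
    rw [e3] at e2
    linarith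
  have i1 : Integrable (fun x => h x * Real.exp (h x) + Real.log W * Real.exp (h x)) ν :=
    ihh.add (ih.const_mul _)
  have i2 : Integrable (fun x => Real.exp (f x) * W⁻¹ - Real.exp (h x)) ν :=
    (jf.mul_const _).sub ih
  have := integral_mono ifh (i1.add i2) pt
  refine this.trans (le_of_eq ?_)
  show ∫ x, (h x * Real.exp (h x) + Real.log W * Real.exp (h x) +
      (Real.exp (f x) * W⁻¹ - Real.exp (h x))) ∂ν = _
  rw [integral_add i1 i2, integral_add ihh (ih.const_mul _), integral_sub (jf.mul_const _) ih,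
    integral_const_mul, integral_mul_const, ← hW, h1, mul_inv_cancel₀ W0.ne']
  ring

/-- the relative entropy bounds the Hellinger distance -/
lemma hell {h g : X → ℝ} (ih : Integrable (fun x => Real.exp (h x)) ν)
    (h1 : ∫ x, Real.exp (h x) ∂ν = 1) (ig : Integrable (fun x => Real.exp (g x)) ν)
    (g1 : ∫ x, Real.exp (g x) ∂ν = 1)
    (ihh : Integrable (fun x => h x * Real.exp (h x)) ν)
    (igh : Integrable (fun x => g x * Real.exp (h x)) ν)
    (im : Integrable (fun x => Real.exp ((g x + h x) / 2)) ν) :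
    ∫ x, (Real.exp (h x / 2) - Real.exp (g x / 2)) ^ 2 ∂ν ≤
      (∫ x, h x * Real.exp (h x) ∂ν) - ∫ x, g x * Real.exp (h x) ∂ν := by
  have sq : ∀ x, (Real.exp (h x / 2) - Real.exp (g x / 2)) ^ 2 =
      Real.exp (h x) + Real.exp (g x) - 2 * Real.exp ((g x + h x) / 2) := by
    intro x
    have a : Real.exp (h x) = Real.exp (h x / 2) ^ 2 := by
      rw [← Real.exp_nat_mul]; congr 1; push_cast; ring
    have b : Real.exp (g x) = Real.exp (g x / 2) ^ 2 := by
      rw [← Real.exp_nat_mul]; congr 1; push_cast; ring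
    have c : Real.exp ((g x + h x) / 2) = Real.exp (h x / 2) * Real.exp (g x / 2) := by
      rw [← Real.exp_add]; congr 1; ring
    rw [a, b, c]; ring
  have pt : ∀ x, 2 * Real.exp (h x) - 2 * Real.exp ((g x + h x) / 2) ≤
      h x * Real.exp (h x) - g x * Real.exp (h x) := by
    intro x
    have e1 := Real.add_one_le_exp ((g x - h x) / 2)
    have e2 := mul_le_mul_of_nonneg_right e1 (Real.exp_pos (h x)).le
    rw [← Real.exp_add] at e2
    have : (g x - h x) / 2 + h x = (g x + h x) / 2 := by ring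
    rw [this] at e2
    linarith
  have i1 : Integrable (fun x => 2 * Real.exp (h x) - 2 * Real.exp ((g x + h x) / 2)) ν :=
    (ih.const_mul 2).sub (im.const_mul 2)
  have h2 := integral_mono i1 (ihh.sub igh) pt
  have e : ∫ x, ((fun x => h x * Real.exp (h x)) - fun x => g x * Real.exp (h x)) x ∂ν =
      (∫ x, h x * Real.exp (h x) ∂ν) - ∫ x, g x * Real.exp (h x) ∂ν := integral_sub ihh igh
  rw [e] at h2
  refine le_trans (le_of_eq ?_) h2
  rw [integral_congr_ae (ae_of_all _ sq)]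
  have i2 : Integrable (fun x => Real.exp (h x) + Real.exp (g x)) ν := ih.add ig
  rw [integral_sub i2 (im.const_mul 2), integral_add ih ig,
    integral_sub (ih.const_mul 2) (im.const_mul 2), integral_const_mul, integral_const_mul,
    h1, g1]
  ring

/-- an elementary inequality -/
lemma absd_le {a b R ε : ℝ} (ha : 0 ≤ a) (hb : 0 ≤ b) (haR : a ≤ R) (hbR : b ≤ R) (hε : 0 < ε) :
    |a ^ 2 - b ^ 2| ≤ R * (ε + (a - b) ^ 2 / ε) := by
  have h1 : |a ^ 2 - b ^ 2| = |a - b| * (a + b) := by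
    rw [show a ^ 2 - b ^ 2 = (a - b) * (a + b) by ring, abs_mul, abs_of_nonneg (by linarith : 0 ≤ a + b)]
  have h2 : 2 * |a - b| ≤ ε + (a - b) ^ 2 / ε := by
    have : ε + (a - b) ^ 2 / ε - 2 * |a - b| = (|a - b| - ε) ^ 2 / ε := by
      rw [← sq_abs (a - b)]; field_simp; ring
    have h3 : 0 ≤ (|a - b| - ε) ^ 2 / ε := by positivity
    linarith
  have R0 : 0 ≤ R := ha.trans haR
  rw [h1]
  have h4 : |a - b| * (a + b) ≤ |a - b| * (2 * R) :=
    mul_le_mul_of_nonneg_left (by linarith) (abs_nonneg _)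
  have h5 := mul_le_mul_of_nonneg_left h2 R0
  linarith

lemma absd2_le {g a b R ε : ℝ} (ha : 0 ≤ a) (hb : 0 ≤ b) (haR : a ≤ R) (hbR : b ≤ R) (hε : 0 < ε) :
    |g * a ^ 2 - g * b ^ 2| ≤ R * (ε * g ^ 2 + (a - b) ^ 2 / ε) := by
  have h1 : |g * a ^ 2 - g * b ^ 2| = |g| * |a - b| * (a + b) := by
    rw [show g * a ^ 2 - g * b ^ 2 = g * (a - b) * (a + b) by ring, abs_mul, abs_mul,
      abs_of_nonneg (by linarith : 0 ≤ a + b)]
  have h2 : 2 * (|g| * |a - b|) ≤ ε * g ^ 2 + (a - b) ^ 2 / ε := by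
    have : ε * g ^ 2 + (a - b) ^ 2 / ε - 2 * (|g| * |a - b|) = (|a - b| - ε * |g|) ^ 2 / ε := by
      rw [← sq_abs (a - b), ← sq_abs g]; field_simp; ring
    have h3 : 0 ≤ (|a - b| - ε * |g|) ^ 2 / ε := by positivity
    linarith
  have R0 : 0 ≤ R := ha.trans haR
  rw [h1]
  have h4 : |g| * |a - b| * (a + b) ≤ |g| * |a - b| * (2 * R) :=
    mul_le_mul_of_nonneg_left (by linarith) (by positivity)
  have h5 := mul_le_mul_of_nonneg_left h2 R0
  linarith

section fixed

variable {n : ℕ} {μ : Measure (E n)} {s M κ : ℝ}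

lemma int_pot (hPB : S_PB) (hs : 0 < s) (G : Good μ s M) {θ : E n → ℝ} (D : Dens μ θ) :
    Integrable (Pot μ θ) μ := by
  obtain ⟨-, il, H⟩ := hPB n μ s M hs G
  obtain ⟨m, ⟨A, hA⟩, hl⟩ := H θ D
  have := G.fin
  have i1 : Integrable (fun x : E n => |A| + |∫ y, Real.log (1 + ‖y‖) * θ y ∂μ| +
      Real.log (1 + ‖x‖)) μ := (integrable_const _).add il
  refine i1.mono' m.aestronglyMeasurable (ae_of_all _ fun x => ?_)
  have h1 := hA x
  have h2 := hl x
  have h3 : 0 ≤ Real.log (1 + ‖x‖) := Real.log_nonneg (by linarith [norm_nonneg x])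
  have h4 := le_abs_self A
  have h5 := le_abs_self (∫ y, Real.log (1 + ‖y‖) * θ y ∂μ)
  have h6 := abs_nonneg A
  have h7 := abs_nonneg (∫ y, Real.log (1 + ‖y‖) * θ y ∂μ)
  rw [Real.norm_eq_abs, abs_le]
  constructor <;> linarith

lemma Dens.int {θ : E n → ℝ} (D : Dens μ θ) : Integrable θ μ := by
  by_contra h
  have := D.one
  rw [integral_undef h] at this
  norm_num at this

lemma Dens.mulr {θ f : E n → ℝ} (D : Dens μ θ) (hf : Integrable f μ) :
    Integrable (fun x => f x * θ x) μ := by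
  obtain ⟨B, hB⟩ := D.bd
  exact hf.mul_bdd (c := B) D.meas.aestronglyMeasurable (ae_of_all _ fun x => by
    rw [Real.norm_eq_abs, abs_of_nonneg (D.nn x)]; exact hB x)

lemma dens_step (hPB : S_PB) (hs : 0 < s) (G : Good μ s M) (hκ : 0 < κ) {θ : E n → ℝ}
    (D : Dens μ θ) : Integrable (fun x => Real.exp (κ * Pot μ θ x)) μ ∧
      0 < ∫ x, Real.exp (κ * Pot μ θ x) ∂μ ∧
      Dens μ (fun x => Real.exp (κ * Pot μ θ x) / ∫ x, Real.exp (κ * Pot μ θ x) ∂μ) := by
  obtain ⟨-, il, H⟩ := hPB n μ s M hs G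
  obtain ⟨m, ⟨A, hA⟩, hl⟩ := H θ D
  have := G.fin
  have m1 : Measurable (fun x => Real.exp (κ * Pot μ θ x)) := (m.const_mul κ).exp
  have hb : ∀ x, Real.exp (κ * Pot μ θ x) ≤ Real.exp (κ * A) := fun x =>
    Real.exp_le_exp.2 (mul_le_mul_of_nonneg_left (hA x) hκ.le)
  have i1 : Integrable (fun x => Real.exp (κ * Pot μ θ x)) μ :=
    (integrable_const (Real.exp (κ * A))).mono' m1.aestronglyMeasurable (ae_of_all _ fun x => by
      rw [Real.norm_eq_abs, abs_of_pos (Real.exp_pos _)]; exact hb x)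
  have : NeZero μ := ⟨G.ne⟩
  have Z0 : 0 < ∫ x, Real.exp (κ * Pot μ θ x) ∂μ := integral_exp_pos i1
  refine ⟨i1, Z0, m1.div_const _, fun x => div_nonneg (Real.exp_pos _).le Z0.le,
    ⟨Real.exp (κ * A) / ∫ x, Real.exp (κ * Pot μ θ x) ∂μ, fun x =>
      div_le_div_of_nonneg_right (hb x) Z0.le⟩, ?_⟩
  rw [integral_div, div_self Z0.ne']

/-- one step of the iteration from a density `a` to `b = T a`, in logarithmic form -/
structure Stp (μ : Measure (E n)) (κ : ℝ) (a b : E n → ℝ) : Prop where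
  Z0 : 0 < ∫ x, Real.exp (κ * Pot μ a x) ∂μ
  eq : ∀ x, b x = Real.exp (κ * Pot μ a x) / ∫ x, Real.exp (κ * Pot μ a x) ∂μ

/-- the logarithm of the next density -/
def lg (μ : Measure (E n)) (κ : ℝ) (a : E n → ℝ) (x : E n) : ℝ :=
  κ * Pot μ a x - Real.log (∫ x, Real.exp (κ * Pot μ a x) ∂μ)

lemma Stp.ex {a b : E n → ℝ} (h : Stp μ κ a b) (x : E n) : b x = Real.exp (lg μ κ a x) := by
  rw [h.eq x, lg, Real.exp_sub, Real.exp_log h.Z0]

/-- the energy -/
def Jn (μ : Measure (E n)) (a b : E n → ℝ) : ℝ := ∫ x, Pot μ a x * b x ∂μ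

lemma int_lg (hPB : S_PB) (hs : 0 < s) (G : Good μ s M) {a : E n → ℝ} (D : Dens μ a) :
    Integrable (lg μ κ a) μ := by
  have := G.fin
  exact ((int_pot hPB hs G D).const_mul κ).sub (integrable_const _)

lemma lg_mul (hPB : S_PB) (hs : 0 < s) (G : Good μ s M) {a b : E n → ℝ} (Da : Dens μ a)
    (Db : Dens μ b) : ∫ x, lg μ κ a x * b x ∂μ =
      κ * Jn μ a b - Real.log (∫ x, Real.exp (κ * Pot μ a x) ∂μ) := by
  have i1 := Db.mulr (int_pot hPB hs G Da)
  have e : ∀ x, lg μ κ a x * b x = κ * (Pot μ a x * b x) -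
      Real.log (∫ x, Real.exp (κ * Pot μ a x) ∂μ) * b x := fun x => by rw [lg]; ring
  rw [integral_congr_ae (ae_of_all _ e), integral_sub (i1.const_mul κ) (Db.int.const_mul _),
    integral_const_mul, integral_const_mul, Db.one, Jn]
  ring

/-- the entropy of `b = T a` -/
def Ent (μ : Measure (E n)) (κ : ℝ) (a : E n → ℝ) (b : E n → ℝ) : ℝ := ∫ x, lg μ κ a x * b x ∂μ

lemma F_le (hPB : S_PB) (hPOS : S_POS) (hs : 0 < s) (G : Good μ s M) (hκ : 0 < κ) {a b : E n → ℝ}
    (Da : Dens μ a) (Db : Dens μ b) :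
    Ent μ κ a b - κ / 2 * Jn μ b b ≤
      κ / 2 * Jn μ a a - Real.log (∫ x, Real.exp (κ * Pot μ a x) ∂μ) := by
  have e1 := lg_mul (κ := κ) hPB hs G Da Db
  have e2 := (hPOS n μ s M hs G a b Da Db).2
  rw [Ent, e1]
  have e3 : 2 * Jn μ a b ≤ Jn μ a a + Jn μ b b := e2
  have e4 := mul_le_mul_of_nonneg_left e3 hκ.le
  linarith

/-- the Hellinger gap -/
def gp (μ : Measure (E n)) (κ : ℝ) (a b : E n → ℝ) : ℝ :=
  ∫ x, (Real.exp (lg μ κ a x / 2) - Real.exp (lg μ κ b x / 2)) ^ 2 ∂μ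

lemma gp_nn (a b : E n → ℝ) : 0 ≤ gp μ κ a b := integral_nonneg fun _ => sq_nonneg _

lemma gap_le (hPB : S_PB) (hs : 0 < s) (G : Good μ s M) {a b c : E n → ℝ}
    (Da : Dens μ a) (Db : Dens μ b) (Dc : Dens μ c) (sab : Stp μ κ a b) (sbc : Stp μ κ b c) :
    κ / 2 * Jn μ b b - Real.log (∫ x, Real.exp (κ * Pot μ b x) ∂μ) + gp μ κ a b ≤
      Ent μ κ a b - κ / 2 * Jn μ b b := by
  have hb : (fun x => Real.exp (lg μ κ a x)) = b := funext fun x => (sab.ex x).symm
  have hc : (fun x => Real.exp (lg μ κ b x)) = c := funext fun x => (sbc.ex x).symm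
  have ib : Integrable (fun x => Real.exp (lg μ κ a x)) μ := by rw [hb]; exact Db.int
  have ic : Integrable (fun x => Real.exp (lg μ κ b x)) μ := by rw [hc]; exact Dc.int
  have b1 : ∫ x, Real.exp (lg μ κ a x) ∂μ = 1 := by rw [hb]; exact Db.one
  have c1 : ∫ x, Real.exp (lg μ κ b x) ∂μ = 1 := by rw [hc]; exact Dc.one
  have ia := int_lg (κ := κ) hPB hs G Da
  have ib' := int_lg (κ := κ) hPB hs G Db
  have j1 : Integrable (fun x => lg μ κ a x * Real.exp (lg μ κ a x)) μ := by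
    have := Db.mulr ia
    refine this.congr (ae_of_all _ fun x => ?_)
    show lg μ κ a x * b x = _
    rw [sab.ex x]
  have j2 : Integrable (fun x => lg μ κ b x * Real.exp (lg μ κ a x)) μ := by
    have := Db.mulr ib'
    refine this.congr (ae_of_all _ fun x => ?_)
    show lg μ κ b x * b x = _
    rw [sab.ex x]
  have j3 : Integrable (fun x => Real.exp ((lg μ κ b x + lg μ κ a x) / 2)) μ := by
    have i0 : Integrable (fun x => Real.exp (lg μ κ a x) + Real.exp (lg μ κ b x)) μ := ib.add ic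
    have ms : AEStronglyMeasurable (fun x => (lg μ κ b x + lg μ κ a x) / 2) μ :=
      ((ib'.add ia).div_const 2).aestronglyMeasurable
    refine i0.mono' (Real.continuous_exp.comp_aestronglyMeasurable ms)
      (ae_of_all _ fun x => ?_)
    rw [Real.norm_eq_abs, abs_of_pos (Real.exp_pos _)]
    rcases le_total (lg μ κ a x) (lg μ κ b x) with h | h
    · have : Real.exp ((lg μ κ b x + lg μ κ a x) / 2) ≤ Real.exp (lg μ κ b x) :=
        Real.exp_le_exp.2 (by linarith)
      linarith [Real.exp_pos (lg μ κ a x)]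
    · have : Real.exp ((lg μ κ b x + lg μ κ a x) / 2) ≤ Real.exp (lg μ κ a x) :=
        Real.exp_le_exp.2 (by linarith)
      linarith [Real.exp_pos (lg μ κ b x)]
  have key := hell ib b1 ic c1 j1 j2 j3
  have e1 : ∫ x, lg μ κ a x * Real.exp (lg μ κ a x) ∂μ = Ent μ κ a b := by
    rw [Ent]; exact integral_congr_ae (ae_of_all _ fun x => by simp only [sab.ex x])
  have e2 : ∫ x, lg μ κ b x * Real.exp (lg μ κ a x) ∂μ =
      κ * Jn μ b b - Real.log (∫ x, Real.exp (κ * Pot μ b x) ∂μ) := by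
    rw [← lg_mul hPB hs G Db Db]
    exact integral_congr_ae (ae_of_all _ fun x => by simp only [sab.ex x])
  rw [e1, e2] at key
  rw [gp]
  linarith

/-- Gibbs' inequality for the iteration -/
lemma gibbs' (hPB : S_PB) (hs : 0 < s) (G : Good μ s M) {a b f : E n → ℝ}
    (Da : Dens μ a) (Db : Dens μ b) (sab : Stp μ κ a b) (hf : Integrable f μ)
    (jf : Integrable (fun x => Real.exp (f x)) μ) :
    ∫ x, f x * b x ∂μ ≤ Ent μ κ a b + Real.log (∫ x, Real.exp (f x) ∂μ) := by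
  have hb : (fun x => Real.exp (lg μ κ a x)) = b := funext fun x => (sab.ex x).symm
  have ib : Integrable (fun x => Real.exp (lg μ κ a x)) μ := by rw [hb]; exact Db.int
  have b1 : ∫ x, Real.exp (lg μ κ a x) ∂μ = 1 := by rw [hb]; exact Db.one
  have ia := int_lg (κ := κ) hPB hs G Da
  have j1 : Integrable (fun x => lg μ κ a x * Real.exp (lg μ κ a x)) μ := by
    have := Db.mulr ia
    refine this.congr (ae_of_all _ fun x => ?_)
    show lg μ κ a x * b x = _
    rw [sab.ex x]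
  have j2 : Integrable (fun x => f x * Real.exp (lg μ κ a x)) μ := by
    have := Db.mulr hf
    refine this.congr (ae_of_all _ fun x => ?_)
    show f x * b x = _
    rw [sab.ex x]
  have key := gibbs ib b1 jf j2 j1
  have e1 : ∫ x, lg μ κ a x * Real.exp (lg μ κ a x) ∂μ = Ent μ κ a b := by
    rw [Ent]; exact integral_congr_ae (ae_of_all _ fun x => by simp only [sab.ex x])
  have e2 : ∫ x, f x * Real.exp (lg μ κ a x) ∂μ = ∫ x, f x * b x ∂μ :=
    integral_congr_ae (ae_of_all _ fun x => by simp only [sab.ex x])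
  rwa [e1, e2] at key

lemma pot_le (hPB : S_PB) (hs : 0 < s) (G : Good μ s M) {a b : E n → ℝ}
    (Da : Dens μ a) (Db : Dens μ b) (sab : Stp μ κ a b) (x : E n) :
    s * Pot μ b x ≤ Ent μ κ a b + Real.log M := by
  obtain ⟨L2, -, -⟩ := hPB n μ s M hs G
  have := G.fin
  have nz : NeZero μ := ⟨G.ne⟩
  have i1 : Integrable (fun y => Real.log ‖x - y‖) μ := (L2 x).integrable (by norm_num)
  have ae : ∀ᵐ y ∂μ, ‖x - y‖ ^ (-s) = Real.exp (-s * Real.log ‖x - y‖) := by
    have : ∀ᵐ y ∂μ, y ≠ x := by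
      rw [ae_iff]
      simpa using G.atom x
    filter_upwards [this] with y hy
    have : 0 < ‖x - y‖ := norm_pos_iff.2 (sub_ne_zero.2 (Ne.symm hy))
    rw [Real.rpow_def_of_pos this, mul_comm]
  have i2 : Integrable (fun y => Real.exp (-s * Real.log ‖x - y‖)) μ := (G.rint x).congr ae
  have key := gibbs' hPB hs G Da Db sab (i1.const_mul (-s)) i2
  have e1 : ∫ y, -s * Real.log ‖x - y‖ * b y ∂μ = s * Pot μ b x := by
    rw [Pot, ← integral_const_mul]
    exact integral_congr_ae (ae_of_all _ fun y => by simp only; ring)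
  have e2 : ∫ y, Real.exp (-s * Real.log ‖x - y‖) ∂μ ≤ M := by
    rw [← integral_congr_ae ae]; exact G.rb x
  have e3 : 0 < ∫ y, Real.exp (-s * Real.log ‖x - y‖) ∂μ := integral_exp_pos i2
  have e4 := Real.log_le_log e3 e2
  rw [e1] at key
  linarith

lemma ent_ge (hPB : S_PB) (hs : 0 < s) (G : Good μ s M) {a b : E n → ℝ}
    (Da : Dens μ a) (Db : Dens μ b) (sab : Stp μ κ a b) :
    -Real.log (μ.real Set.univ) ≤ Ent μ κ a b := by
  have := G.fin
  have key := gibbs' (f := fun _ => 0) hPB hs G Da Db sab (integrable_const _)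
    (integrable_const _)
  simp at key
  linarith

lemma mom_le (hPB : S_PB) (hs : 0 < s) (G : Good μ s M) {a b : E n → ℝ}
    (Da : Dens μ a) (Db : Dens μ b) (sab : Stp μ κ a b) :
    ∫ y, Real.log (1 + ‖y‖) * b y ∂μ ≤ Ent μ κ a b + Real.log (∫ y, (1 + ‖y‖) ∂μ) := by
  obtain ⟨-, il, -⟩ := hPB n μ s M hs G
  have := G.fin
  have e : ∀ y : E n, Real.exp (Real.log (1 + ‖y‖)) = 1 + ‖y‖ := fun y =>
    Real.exp_log (by positivity)
  have i0 : Integrable (fun y : E n => 1 + ‖y‖) μ := (integrable_const _).add G.mom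
  have key := gibbs' hPB hs G Da Db sab il (i0.congr (ae_of_all _ fun y => (e y).symm))
  rwa [integral_congr_ae (ae_of_all _ e)] at key

lemma J_le (hPB : S_PB) (hs : 0 < s) (G : Good μ s M) {a b : E n → ℝ}
    (Da : Dens μ a) (Db : Dens μ b) (sab : Stp μ κ a b) :
    s * Jn μ b b ≤ Ent μ κ a b + Real.log M := by
  have h1 : ∫ x, s * Pot μ b x * b x ∂μ ≤ ∫ x, (Ent μ κ a b + Real.log M) * b x ∂μ := by
    have i1 := Db.mulr ((int_pot hPB hs G Db).const_mul s)
    exact integral_mono i1 (Db.int.const_mul _) fun x =>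
      mul_le_mul_of_nonneg_right (pot_le hPB hs G Da Db sab x) (Db.nn x)
  rw [integral_const_mul, Db.one, mul_one] at h1
  have e : ∫ x, s * Pot μ b x * b x ∂μ = s * Jn μ b b := by
    rw [Jn, ← integral_const_mul]
    exact integral_congr_ae (ae_of_all _ fun y => by simp only; ring)
  rwa [e] at h1

lemma exp_half_sq (u : ℝ) : Real.exp (u / 2) ^ 2 = Real.exp u := by
  rw [← Real.exp_nat_mul]; congr 1; push_cast; ring

lemma diff_le (hPB : S_PB) (hs : 0 < s) (G : Good μ s M) {a b c : E n → ℝ}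
    (Da : Dens μ a) (Db : Dens μ b) (Dc : Dens μ c) (sab : Stp μ κ a b) (sbc : Stp μ κ b c)
    {B : ℝ} (hbB : ∀ x, b x ≤ B) (hcB : ∀ x, c x ≤ B) {ε : ℝ} (hε : 0 < ε) (x : E n) :
    |Pot μ b x - Pot μ c x| ≤
      √B * (ε * (∫ y, Real.log ‖x - y‖ ^ 2 ∂μ) + gp μ κ a b / ε) := by
  obtain ⟨L2, -, -⟩ := hPB n μ s M hs G
  have := G.fin
  have i1 : Integrable (fun y => Real.log ‖x - y‖) μ := (L2 x).integrable (by norm_num)
  have i2 : Integrable (fun y => Real.log ‖x - y‖ ^ 2) μ := (L2 x).integrable_sq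
  have ia := int_lg (κ := κ) hPB hs G Da
  have ib := int_lg (κ := κ) hPB hs G Db
  have ea : ∀ y, Real.exp (lg μ κ a y / 2) ^ 2 = b y := fun y => by
    rw [exp_half_sq, sab.ex y]
  have eb : ∀ y, Real.exp (lg μ κ b y / 2) ^ 2 = c y := fun y => by
    rw [exp_half_sq, sbc.ex y]
  have i3 : Integrable (fun y => (Real.exp (lg μ κ a y / 2) - Real.exp (lg μ κ b y / 2)) ^ 2) μ := by
    have i0 : Integrable (fun y => b y + c y) μ := Db.int.add Dc.int
    have m1 : AEStronglyMeasurable (fun y => Real.exp (lg μ κ a y / 2)) μ :=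
      Real.continuous_exp.comp_aestronglyMeasurable (ia.div_const 2).aestronglyMeasurable
    have m2 : AEStronglyMeasurable (fun y => Real.exp (lg μ κ b y / 2)) μ :=
      Real.continuous_exp.comp_aestronglyMeasurable (ib.div_const 2).aestronglyMeasurable
    refine i0.mono' ((m1.sub m2).pow 2) (ae_of_all _ fun y => ?_)
    rw [Real.norm_eq_abs, abs_of_nonneg (sq_nonneg _), ← ea y, ← eb y]
    have := mul_pos (Real.exp_pos (lg μ κ a y / 2)) (Real.exp_pos (lg μ κ b y / 2))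
    nlinarith
  have jb : Integrable (fun y => -Real.log ‖x - y‖ * b y) μ := Db.mulr i1.neg
  have jc : Integrable (fun y => -Real.log ‖x - y‖ * c y) μ := Dc.mulr i1.neg
  have e1 : Pot μ b x - Pot μ c x =
      ∫ y, (-Real.log ‖x - y‖ * b y - -Real.log ‖x - y‖ * c y) ∂μ := by
    rw [Pot, Pot, integral_sub jb jc]
  rw [e1]
  refine (abs_integral_le_integral_abs).trans ?_
  have pt : ∀ y, |-Real.log ‖x - y‖ * b y - -Real.log ‖x - y‖ * c y| ≤
      √B * (ε * Real.log ‖x - y‖ ^ 2 +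
        (Real.exp (lg μ κ a y / 2) - Real.exp (lg μ κ b y / 2)) ^ 2 / ε) := by
    intro y
    have ra : Real.exp (lg μ κ a y / 2) ≤ √B := by
      refine Real.le_sqrt_of_sq_le ?_
      rw [ea y]; exact hbB y
    have rb : Real.exp (lg μ κ b y / 2) ≤ √B := by
      refine Real.le_sqrt_of_sq_le ?_
      rw [eb y]; exact hcB y
    have := absd2_le (g := -Real.log ‖x - y‖) (Real.exp_pos (lg μ κ a y / 2)).le
      (Real.exp_pos (lg μ κ b y / 2)).le ra rb hε
    rw [ea y, eb y] at this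
    rwa [neg_sq] at this
  have j1 : Integrable (fun y => ε * Real.log ‖x - y‖ ^ 2 +
        (Real.exp (lg μ κ a y / 2) - Real.exp (lg μ κ b y / 2)) ^ 2 / ε) μ :=
    (i2.const_mul ε).add (i3.div_const ε)
  have key := integral_mono (jb.sub jc).abs (j1.const_mul (√B)) pt
  refine key.trans (le_of_eq ?_)
  rw [integral_const_mul, integral_add (i2.const_mul ε) (i3.div_const ε), integral_const_mul,
    integral_div, gp]

/-- the iteration -/
def itr (μ : Measure (E n)) (κ : ℝ) : ℕ → E n → ℝ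
  | 0 => fun _ => (μ.real Set.univ)⁻¹
  | k + 1 => fun x => Real.exp (κ * Pot μ (itr μ κ k) x) /
      ∫ x, Real.exp (κ * Pot μ (itr μ κ k) x) ∂μ

lemma itr_dens (hPB : S_PB) (hs : 0 < s) (G : Good μ s M) (hκ : 0 < κ) (k : ℕ) :
    Dens μ (itr μ κ k) := by
  induction k with
  | zero =>
    have := G.fin
    have nz : NeZero μ := ⟨G.ne⟩
    have V0 : 0 < μ.real Set.univ := measureReal_univ_pos
    refine ⟨measurable_const, fun x => (inv_pos.2 V0).le, ⟨_, fun x => le_rfl⟩, ?_⟩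
    show ∫ _x, (μ.real Set.univ)⁻¹ ∂μ = 1
    rw [integral_const, smul_eq_mul, mul_inv_cancel₀ V0.ne']
  | succ k ih => exact (dens_step hPB hs G hκ ih).2.2

lemma itr_stp (hPB : S_PB) (hs : 0 < s) (G : Good μ s M) (hκ : 0 < κ) (k : ℕ) :
    Stp μ κ (itr μ κ k) (itr μ κ (k + 1)) :=
  ⟨(dens_step hPB hs G hκ (itr_dens hPB hs G hκ k)).2.1, fun _ => rfl⟩

/-- bounds for the iteration -/
lemma itr_bd (hPB : S_PB) (hPOS : S_POS) (hs : 0 < s) (G : Good μ s M) (hκ : 0 < κ)
    (hκs : κ < 2 * s) :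
    (∃ Em : ℝ, ∀ k, Ent μ κ (itr μ κ k) (itr μ κ (k + 1)) ≤ Em) ∧
    Tendsto (fun k => gp μ κ (itr μ κ k) (itr μ κ (k + 1))) atTop (𝓝 0) := by
  have D := itr_dens hPB hs G hκ
  have S := itr_stp hPB hs G hκ
  obtain ⟨H, hH⟩ : ∃ H : ℕ → ℝ, ∀ k, H k = κ / 2 * Jn μ (itr μ κ k) (itr μ κ k) -
    Real.log (∫ x, Real.exp (κ * Pot μ (itr μ κ k) x) ∂μ) := ⟨_, fun _ => rfl⟩
  obtain ⟨e, he⟩ : ∃ e : ℕ → ℝ, ∀ k, e k = Ent μ κ (itr μ κ k) (itr μ κ (k + 1)) :=
    ⟨_, fun _ => rfl⟩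
  obtain ⟨J, hJ⟩ : ∃ J : ℕ → ℝ, ∀ k, J k = Jn μ (itr μ κ k) (itr μ κ k) := ⟨_, fun _ => rfl⟩
  obtain ⟨g, hg⟩ : ∃ g : ℕ → ℝ, ∀ k, g k = gp μ κ (itr μ κ k) (itr μ κ (k + 1)) :=
    ⟨_, fun _ => rfl⟩
  have g0 : ∀ k, 0 ≤ g k := fun k => by rw [hg]; exact gp_nn _ _
  have h1 : ∀ k, e k - κ / 2 * J (k + 1) ≤ H k := fun k => by
    rw [he, hJ, hH]; exact F_le hPB hPOS hs G hκ (D k) (D (k + 1))
  have h2 : ∀ k, H (k + 1) + g k ≤ e k - κ / 2 * J (k + 1) := fun k => by
    rw [he, hJ, hH, hg]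
    exact gap_le hPB hs G (D k) (D (k + 1)) (D (k + 2)) (S k) (S (k + 1))
  have h3 : ∀ k, s * J (k + 1) ≤ e k + Real.log M := fun k => by
    rw [he, hJ]; exact J_le hPB hs G (D k) (D (k + 1)) (S k)
  have h4 : ∀ k, -Real.log (μ.real Set.univ) ≤ e k := fun k => by
    rw [he]; exact ent_ge hPB hs G (D k) (D (k + 1)) (S k)
  have anti : Antitone H := antitone_nat_of_succ_le fun k => by
    have := h1 k; have := h2 k; have := g0 k; linarith
  have d0 : 0 < 2 * s - κ := by linarith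
  have h5 : ∀ k, (2 * s - κ) * e k - κ * Real.log M ≤ 2 * s * H k := by
    intro k
    have a1 := mul_le_mul_of_nonneg_left (h1 k) (by positivity : 0 ≤ 2 * s)
    have a2 := mul_le_mul_of_nonneg_left (h3 k) hκ.le
    nlinarith
  have h6 : ∀ k, e k ≤ (2 * s * H 0 + κ * Real.log M) / (2 * s - κ) := by
    intro k
    rw [le_div_iff₀ d0]
    have a1 := h5 k
    have a2 := mul_le_mul_of_nonneg_left (anti (Nat.zero_le k)) (by positivity : 0 ≤ 2 * s)
    linarith
  refine ⟨⟨_, fun k => by rw [← he]; exact h6 k⟩, ?_⟩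
  have h7 : ∀ k, (-(2 * s - κ) * Real.log (μ.real Set.univ) - κ * Real.log M) / (2 * s) ≤ H k := by
    intro k
    rw [div_le_iff₀ (by positivity)]
    have a1 := h5 k
    have a2 := mul_le_mul_of_nonneg_left (h4 k) d0.le
    linarith
  have bb : BddBelow (Set.range H) := ⟨_, by rintro _ ⟨k, rfl⟩; exact h7 k⟩
  have t1 := tendsto_atTop_ciInf anti bb
  have t2 := t1.sub (t1.comp (tendsto_add_atTop_nat 1))
  rw [sub_self] at t2
  have t3 : Tendsto g atTop (𝓝 0) := by
    refine squeeze_zero g0 (fun k => ?_) t2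
    have := h1 k
    have := h2 k
    show g k ≤ H k - H (k + 1)
    linarith
  exact t3.congr fun k => hg k

end fixed

theorem t_EX (hPB : S_PB) (hPOS : S_POS) (hWK : S_WK) : S_EX := by
  intro n μ s M κ hs G hκ hκs
  have := G.fin
  have nz : NeZero μ := ⟨G.ne⟩
  have V0 : 0 < μ.real Set.univ := measureReal_univ_pos
  have D := itr_dens hPB hs G hκ
  have S := itr_stp hPB hs G hκ
  obtain ⟨⟨Em, hEm⟩, tg⟩ := itr_bd hPB hPOS hs G hκ hκs
  obtain ⟨L2, il, HP⟩ := hPB n μ s M hs G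
  obtain ⟨θ, hθ⟩ : ∃ θ : ℕ → E n → ℝ, θ = itr μ κ := ⟨_, rfl⟩
  rw [← hθ] at D S tg hEm
  -- uniform bounds
  obtain ⟨A, hA⟩ : ∃ A : ℝ, ∀ k x, Pot μ (θ (k + 1)) x ≤ A :=
    ⟨(Em + Real.log M) / s, fun k x => by
      rw [le_div_iff₀ hs]
      have := pot_le hPB hs G (D k) (D (k + 1)) (S k) x
      have := hEm k
      linarith⟩
  obtain ⟨L, hL⟩ : ∃ L : ℝ, ∀ k x, -Real.log (1 + ‖x‖) - L ≤ Pot μ (θ (k + 1)) x :=
    ⟨Em + Real.log (∫ y, (1 + ‖y‖) ∂μ), fun k x => by
      have h1 := (HP _ (D (k + 1))).2.2 x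
      have h2 := mom_le hPB hs G (D k) (D (k + 1)) (S k)
      have := hEm k
      linarith⟩
  have mP : ∀ k, Measurable (Pot μ (θ k)) := fun k => (HP _ (D k)).1
  have lowi : Integrable (fun x : E n => Real.exp (κ * (-Real.log (1 + ‖x‖) - L))) μ := by
    refine (integrable_const (Real.exp (κ * (-L)))).mono' ?_ (ae_of_all _ fun x => ?_)
    · exact (((((measurable_const.add measurable_norm).log.neg).sub_const L).const_mul
        κ).exp).aestronglyMeasurable
    · rw [Real.norm_eq_abs, abs_of_pos (Real.exp_pos _)]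
      refine Real.exp_le_exp.2 (mul_le_mul_of_nonneg_left ?_ hκ.le)
      have : 0 ≤ Real.log (1 + ‖x‖) := Real.log_nonneg (by linarith [norm_nonneg x])
      linarith
  obtain ⟨z, hz⟩ : ∃ z : ℝ, z = ∫ x : E n, Real.exp (κ * (-Real.log (1 + ‖x‖) - L)) ∂μ := ⟨_, rfl⟩
  have z0 : 0 < z := by rw [hz]; exact integral_exp_pos lowi
  have hzl : ∀ k, z ≤ ∫ x, Real.exp (κ * Pot μ (θ (k + 1)) x) ∂μ := fun k => by
    rw [hz]
    exact integral_mono lowi (dens_step hPB hs G hκ (D (k + 1))).1 fun x =>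
      Real.exp_le_exp.2 (mul_le_mul_of_nonneg_left (hL k x) hκ.le)
  obtain ⟨B, hB⟩ : ∃ B : ℝ, B = Real.exp (κ * A) / z := ⟨_, rfl⟩
  have B0 : 0 < B := by rw [hB]; positivity
  have hθB : ∀ k x, θ (k + 2) x ≤ B := fun k x => by
    rw [hB, (S (k + 1)).eq x]
    exact div_le_div₀ (Real.exp_pos _).le
      (Real.exp_le_exp.2 (mul_le_mul_of_nonneg_left (hA k x) hκ.le)) z0 (hzl k)
  -- weak limit
  obtain ⟨σ, η, hσ, mη, bη, tη⟩ := hWK n μ G.fin B (fun k => θ (k + 2))
    (fun k => (D (k + 2)).meas) (fun k x => ⟨(D (k + 2)).nn x, hθB k x⟩)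
  have t1 : ∀ x, Tendsto (fun k => Pot μ (θ (σ k + 2)) x) atTop (𝓝 (Pot μ η x)) := fun x =>
    tη (fun y => -Real.log ‖x - y‖) (L2 x).neg
  have η1 : ∫ x, η x ∂μ = 1 := by
    have := tη (fun _ => 1) (memLp_const 1)
    simp only [one_mul] at this
    have h2 : (fun k => ∫ x, θ (σ k + 2) x ∂μ) = fun _ => 1 := funext fun k => (D _).one
    rw [h2] at this
    exact (tendsto_nhds_unique this tendsto_const_nhds)
  have Dη : Dens μ η := ⟨mη, fun x => (bη x).1, ⟨B, fun x => (bη x).2⟩, η1⟩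
  obtain ⟨iη, Zη, Dζ⟩ := dens_step hPB hs G hκ Dη
  obtain ⟨Z, hZ⟩ : ∃ Z : ℝ, Z = ∫ x, Real.exp (κ * Pot μ η x) ∂μ := ⟨_, rfl⟩
  rw [← hZ] at Zη Dζ
  have t2 : Tendsto (fun k => ∫ x, Real.exp (κ * Pot μ (θ (σ k + 2)) x) ∂μ) atTop (𝓝 Z) := by
    rw [hZ]
    refine tendsto_integral_of_dominated_convergence (fun _ => Real.exp (κ * A))
      (fun k => ((mP _).const_mul κ).exp.aestronglyMeasurable) (integrable_const _)
      (fun k => ae_of_all _ fun x => ?_) (ae_of_all _ fun x => ?_)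
    · rw [Real.norm_eq_abs, abs_of_pos (Real.exp_pos _)]
      exact Real.exp_le_exp.2 (mul_le_mul_of_nonneg_left (hA (σ k + 1) x) hκ.le)
    · exact (Real.continuous_exp.tendsto _).comp ((t1 x).const_mul κ)
  obtain ⟨ζ, hζ⟩ : ∃ ζ : E n → ℝ, ζ = fun x => Real.exp (κ * Pot μ η x) / Z := ⟨_, rfl⟩
  rw [← hζ] at Dζ
  have t3 : ∀ y, Tendsto (fun k => θ (σ k + 3) y) atTop (𝓝 (ζ y)) := fun y => by
    have e : (fun k => θ (σ k + 3) y) = fun k => Real.exp (κ * Pot μ (θ (σ k + 2)) y) /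
        ∫ x, Real.exp (κ * Pot μ (θ (σ k + 2)) x) ∂μ := funext fun k => (S (σ k + 2)).eq y
    rw [e, hζ]
    exact ((Real.continuous_exp.tendsto _).comp ((t1 y).const_mul κ)).div t2 Zη.ne'
  have t4 : ∀ x, Tendsto (fun k => Pot μ (θ (σ k + 3)) x) atTop (𝓝 (Pot μ ζ x)) := fun x => by
    have i1 : Integrable (fun y => Real.log ‖x - y‖) μ := (L2 x).integrable (by norm_num)
    refine tendsto_integral_of_dominated_convergence (fun y => |Real.log ‖x - y‖| * B)
      (fun k => ((D (σ k + 3)).mulr i1.neg).aestronglyMeasurable) (i1.abs.mul_const B)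
      (fun k => ae_of_all _ fun y => ?_) (ae_of_all _ fun y => (t3 y).const_mul _)
    rw [Real.norm_eq_abs, abs_mul, abs_neg, abs_of_nonneg ((D (σ k + 3)).nn y)]
    exact mul_le_mul_of_nonneg_left (hθB (σ k + 1) y) (abs_nonneg _)
  have tσ : Tendsto σ atTop atTop := hσ.tendsto_atTop
  have key : ∀ x, Pot μ η x = Pot μ ζ x := by
    intro x
    have t5 := ((t1 x).sub (t4 x)).abs
    obtain ⟨N, hN⟩ : ∃ N : ℝ, N = ∫ y, Real.log ‖x - y‖ ^ 2 ∂μ := ⟨_, rfl⟩
    have N0 : 0 ≤ N := by rw [hN]; exact integral_nonneg fun _ => sq_nonneg _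
    have h1 : ∀ ε : ℝ, 0 < ε → |Pot μ η x - Pot μ ζ x| ≤ √B * (ε * N) := by
      intro ε hε
      have t6 : Tendsto (fun k => √B * (ε * N + gp μ κ (θ (σ k + 1)) (θ (σ k + 2)) / ε)) atTop
          (𝓝 (√B * (ε * N + 0 / ε))) := by
        have t7 : Tendsto (fun k => gp μ κ (θ (σ k + 1)) (θ (σ k + 2))) atTop (𝓝 0) := by
          have : Tendsto (fun k => σ k + 1) atTop atTop :=
            (tendsto_add_atTop_nat 1).comp tσ
          exact tg.comp this
        exact ((t7.div_const ε).const_add (ε * N)).const_mul (√B)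
      have t8 : |Pot μ η x - Pot μ ζ x| ≤ √B * (ε * N + 0 / ε) := by
        refine le_of_tendsto_of_tendsto' t5 t6 fun k => ?_
        rw [hN]
        exact diff_le hPB hs G (D (σ k + 1)) (D (σ k + 2)) (D (σ k + 3)) (S (σ k + 1))
          (S (σ k + 2)) (hθB (σ k)) (hθB (σ k + 1)) hε x
      simpa using t8
    have h2 : |Pot μ η x - Pot μ ζ x| ≤ 0 := by
      refine le_of_forall_pos_le_add fun δ hδ => ?_
      have h3 := h1 (δ / (√B * N + 1)) (by positivity)
      have h4 : √B * (δ / (√B * N + 1) * N) ≤ δ := by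
        have e : √B * (δ / (√B * N + 1) * N) = δ * (√B * N / (√B * N + 1)) := by
          field_simp
        rw [e]
        have : √B * N / (√B * N + 1) ≤ 1 := by
          rw [div_le_one (by positivity)]; linarith
        calc δ * (√B * N / (√B * N + 1)) ≤ δ * 1 := mul_le_mul_of_nonneg_left this hδ.le
          _ = δ := mul_one _
      linarith
    have h3 := abs_nonpos_iff.1 h2
    linarith
  refine ⟨ζ, Dζ, Z, Zη, fun x => ?_⟩
  rw [← key x, hζ]

end

end Pool.Agent.E8helper19.QC
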