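import Mathlib

/-!
# Project QC: exact statements of the pieces (MP_d59d86_an)

Singular Q-curvature solutions with prescribed polynomial part. Nothing is proved here.
-/

set_option autoImplicit false
open MeasureTheory Filter Topology SchwartzMap FourierTransform Laplacian
open scoped ContDiff ENNReal Real

namespace Pool.Agent.E8helper19.QC

noncomputable section

/-- `ℝ^n` -/
abbrev E (n : ℕ) : Type := EuclideanSpace ℝ (Fin n)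

/-- the value of a polynomial at a point of `ℝ^n` -/
def pv {n : ℕ} (p : MvPolynomial (Fin n) ℝ) (x : E n) : ℝ := MvPolynomial.eval (fun i => x i) p

/-- the volume `2 π^((n+1)/2) / Γ((n+1)/2)` of the unit sphere `S^n` of `ℝ^(n+1)` -/
def sphereVol (n : ℕ) : ℝ := 2 * π ^ (((n : ℝ) + 1) / 2) / Real.Gamma (((n : ℝ) + 1) / 2)

/-- `Λ₁ = (n-1)! |S^n|` -/
def Lam1 (n : ℕ) : ℝ := ((n - 1).factorial : ℝ) * sphereVol n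

/-- `(-Δ)^(n/2) φ`, defined by the Fourier transform (with `𝓕 f(ξ) = ∫ e^(-2πi x·ξ) f(x) dx`) -/
def FL (n : ℕ) (φ : 𝓢(E n, ℂ)) : E n → ℂ :=
  𝓕⁻ (fun ξ : E n => (((2 * π * ‖ξ‖) ^ n : ℝ) : ℂ) * 𝓕 (φ : E n → ℂ) ξ)

/-! ## Growth of polynomials, and the reference measure -/

/-- QC1. A polynomial tending to `-∞` tends to `-∞` at least as fast as a power. -/
def S_LOJ : Prop :=
  ∀ (n : ℕ) (p : MvPolynomial (Fin n) ℝ), 1 ≤ n → Tendsto (pv p) (cocompact (E n)) atBot →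
    ∃ c δ C : ℝ, 0 < c ∧ 0 < δ ∧ ∀ x : E n, pv p x ≤ C - c * ‖x‖ ^ δ

/-- the reference measures -/
structure Good {n : ℕ} (ν : Measure (E n)) (s M : ℝ) : Prop where
  fin : IsFiniteMeasure ν
  ne : ν ≠ 0
  atom : ∀ x, ν {x} = 0
  mom : Integrable (fun y => ‖y‖) ν
  rint : ∀ x, Integrable (fun y => ‖x - y‖ ^ (-s)) ν
  rb : ∀ x, ∫ y, ‖x - y‖ ^ (-s) ∂ν ≤ M

/-- the measure `|x|^(nα) e^(n q(x)) dx` -/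
def nu {n : ℕ} (α : ℝ) (q : E n → ℝ) : Measure (E n) :=
  volume.withDensity fun x => ENNReal.ofReal (‖x‖ ^ ((n : ℝ) * α) * Real.exp (n * q x))

/-- QC2. -/
def S_NU : Prop :=
  ∀ (n : ℕ) (α s c δ C : ℝ) (q : E n → ℝ), 1 ≤ n → -1 < α → 0 < s → s < n → s < n * (1 + α) →
    Continuous q → 0 < c → 0 < δ → (∀ x, q x ≤ C - c * ‖x‖ ^ δ) → ∃ M : ℝ, Good (nu α q) s M

/-! ## Logarithmic potentials -/

/-- the logarithmic potential `∫ log(1/|x-y|) θ(y) dν(y)` -/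
def Pot {n : ℕ} (ν : Measure (E n)) (θ : E n → ℝ) (x : E n) : ℝ :=
  ∫ y, -Real.log ‖x - y‖ * θ y ∂ν

/-- bounded probability densities with respect to `ν` -/
structure Dens {n : ℕ} (ν : Measure (E n)) (θ : E n → ℝ) : Prop where
  meas : Measurable θ
  nn : ∀ x, 0 ≤ θ x
  bd : ∃ B : ℝ, ∀ x, θ x ≤ B
  one : ∫ x, θ x ∂ν = 1

/-- QC3. Bounds for potentials. -/
def S_PB : Prop :=
  ∀ (n : ℕ) (ν : Measure (E n)) (s M : ℝ), 0 < s → Good ν s M →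
    (∀ x : E n, MemLp (fun y => Real.log ‖x - y‖) 2 ν) ∧
    Integrable (fun y => Real.log (1 + ‖y‖)) ν ∧
    ∀ θ : E n → ℝ, Dens ν θ → Measurable (Pot ν θ) ∧
      (∃ A : ℝ, ∀ x, Pot ν θ x ≤ A) ∧
      (∀ x, -Real.log (1 + ‖x‖) - (∫ y, Real.log (1 + ‖y‖) * θ y ∂ν) ≤ Pot ν θ x)

/-- QC4. The logarithmic energy is symmetric, and positive on differences. -/
def S_POS : Prop :=
  ∀ (n : ℕ) (ν : Measure (E n)) (s M : ℝ), 0 < s → Good ν s M →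
    ∀ θ₁ θ₂ : E n → ℝ, Dens ν θ₁ → Dens ν θ₂ →
      ∫ x, Pot ν θ₁ x * θ₂ x ∂ν = ∫ x, Pot ν θ₂ x * θ₁ x ∂ν ∧
      2 * ∫ x, Pot ν θ₁ x * θ₂ x ∂ν ≤
        (∫ x, Pot ν θ₁ x * θ₁ x ∂ν) + ∫ x, Pot ν θ₂ x * θ₂ x ∂ν

/-- QC5. Weak sequential compactness of bounded densities. -/
def S_WK : Prop :=
  ∀ (n : ℕ) (ν : Measure (E n)), IsFiniteMeasure ν → ∀ (B : ℝ) (θ : ℕ → E n → ℝ),
    (∀ k, Measurable (θ k)) → (∀ k x, 0 ≤ θ k x ∧ θ k x ≤ B) →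
    ∃ (σ : ℕ → ℕ) (η : E n → ℝ), StrictMono σ ∧ Measurable η ∧ (∀ x, 0 ≤ η x ∧ η x ≤ B) ∧
      ∀ g : E n → ℝ, MemLp g 2 ν →
        Tendsto (fun k => ∫ x, g x * θ (σ k) x ∂ν) atTop (𝓝 (∫ x, g x * η x ∂ν))

/-- QC6. The fixed point (existence of a critical point of the free energy). -/
def S_EX : Prop :=
  ∀ (n : ℕ) (ν : Measure (E n)) (s M κ : ℝ), 0 < s → Good ν s M → 0 < κ → κ < 2 * s →
    ∃ θ : E n → ℝ, Dens ν θ ∧ ∃ Z : ℝ, 0 < Z ∧ ∀ x, θ x = Real.exp (κ * Pot ν θ x) / Z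

/-- QC7. Behaviour of the potential at infinity. -/
def S_ASY : Prop :=
  ∀ (n : ℕ) (ν : Measure (E n)) (s M : ℝ), 0 < s → Good ν s M →
    ∀ θ : E n → ℝ, Dens ν θ →
      Tendsto (fun x => Pot ν θ x + Real.log ‖x‖) (cocompact (E n)) (𝓝 0)

/-! ## The operator `(-Δ)^(n/2)` -/

/-- QC8. Decay of `(-Δ)^(n/2) φ`. -/
def S_DEC : Prop :=
  ∀ (n : ℕ) (φ : 𝓢(E n, ℂ)), 1 ≤ n → Continuous (FL n φ) ∧ (∃ C : ℝ, ∀ x, ‖FL n φ x‖ ≤ C) ∧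
    Integrable (fun x => (1 + ‖x‖) ^ (n - 1) * ‖FL n φ x‖)

/-- the heat semigroup `e^(tΔ) ψ` -/
def Heat (n : ℕ) (t : ℝ) (ψ : 𝓢(E n, ℂ)) : E n → ℂ :=
  𝓕⁻ (fun ξ : E n => ((Real.exp (-(4 * π ^ 2 * t * ‖ξ‖ ^ 2)) : ℝ) : ℂ) * 𝓕 (ψ : E n → ℂ) ξ)

/-- `ψ = (-Δ)^k φ` -/
def IsLap {n : ℕ} (k : ℕ) (φ ψ : 𝓢(E n, ℂ)) : Prop :=
  ∀ ξ : E n, 𝓕 (ψ : E n → ℂ) ξ = (((2 * π * ‖ξ‖) ^ (2 * k) : ℝ) : ℂ) * 𝓕 (φ : E n → ℂ) ξ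

/-- QC8a. The even case of `S_DEC`, and the function `(-Δ)^k φ`. -/
def S_DECE : Prop :=
  (∀ (n k : ℕ) (φ : 𝓢(E n, ℂ)), ∃ ψ : 𝓢(E n, ℂ), IsLap k φ ψ ∧
    (n = 2 * k → ∀ x, FL n φ x = ψ x)) ∧
  ∀ (n : ℕ) (φ : 𝓢(E n, ℂ)), Even n → Continuous (FL n φ) ∧ (∃ C : ℝ, ∀ x, ‖FL n φ x‖ ≤ C) ∧
    Integrable (fun x => (1 + ‖x‖) ^ (n - 1) * ‖FL n φ x‖)

/-- QC8b. Subordination. -/
def S_SUB : Prop :=
  ∀ (n k : ℕ) (φ ψ : 𝓢(E n, ℂ)), n = 2 * k + 1 → IsLap k φ ψ →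
    Continuous (FL n φ) ∧ (∃ C : ℝ, ∀ x, ‖FL n φ x‖ ≤ C) ∧
    ContinuousOn (fun z : ℝ × E n => Heat n z.1 ψ z.2) (Set.Ioi 0 ×ˢ Set.univ) ∧
    ∀ x, FL n φ x = ((1 / (2 * √π) : ℝ) : ℂ) *
      ∫ t in Set.Ioi (0 : ℝ), ((t ^ (-(3 / 2) : ℝ) : ℝ) : ℂ) * (ψ x - Heat n t ψ x)

/-- QC8c. Small times. -/
def S_SML : Prop :=
  ∀ (n m : ℕ) (ψ : 𝓢(E n, ℂ)), ∃ C : ℝ, ∀ t : ℝ, 0 < t → t ≤ 1 →
    Integrable (fun x => (1 + ‖x‖) ^ m * ‖ψ x - Heat n t ψ x‖) ∧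
    ∫ x, (1 + ‖x‖) ^ m * ‖ψ x - Heat n t ψ x‖ ≤ C * t

/-- QC8d. Large times. -/
def S_LRG : Prop :=
  ∀ (n k : ℕ) (φ ψ : 𝓢(E n, ℂ)), IsLap k φ ψ → ∃ C : ℝ, ∀ t : ℝ, 1 ≤ t →
    Integrable (fun x => (1 + ‖x‖) ^ (2 * k) * ‖Heat n t ψ x‖) ∧
    ∫ x, (1 + ‖x‖) ^ (2 * k) * ‖Heat n t ψ x‖ ≤ C

/-- QC9. `(-Δ)^(n/2) φ` is orthogonal to the polynomials of degree `≤ n - 1`. -/
def S_MOM : Prop :=
  ∀ (n : ℕ) (φ : 𝓢(E n, ℂ)) (p : MvPolynomial (Fin n) ℝ), 1 ≤ n → p.totalDegree ≤ n - 1 →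
    ∫ x, (pv p x : ℂ) * FL n φ x = 0

/-- QC10. The fundamental solution. -/
def S_FS : Prop :=
  ∀ (n : ℕ) (φ : 𝓢(E n, ℂ)), 2 ≤ n → ∀ y : E n,
    Integrable (fun x => (Real.log ‖x - y‖ : ℂ) * FL n φ x) ∧
    ∫ x, ((-Real.log ‖x - y‖ : ℝ) : ℂ) * FL n φ x = ((Lam1 n / 2 : ℝ) : ℂ) * φ y

/-- QC11. In even dimensions the operator is the iterated Laplacian. -/
def S_EVEN : Prop :=
  ∀ (n : ℕ) (φ : E n → ℝ), Even n → ContDiff ℝ ∞ φ → HasCompactSupport φ →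
    ∃ Φ : 𝓢(E n, ℂ), (∀ x, Φ x = (φ x : ℂ)) ∧
      ∀ x, FL n Φ x = (((-1) ^ (n / 2) * (Laplacian.laplacian^[n / 2] φ) x : ℝ) : ℂ)

/-! ## The theorem -/

/-- `u` is a weak solution of `(-Δ)^(n/2) u = e^(nu) |x|^(nα)` in `ℝ^n`. -/
structure IsSol (n : ℕ) (α : ℝ) (u : E n → ℝ) : Prop where
  loc : LocallyIntegrable u
  even : Even n → ∀ φ : E n → ℝ, ContDiff ℝ ∞ φ → HasCompactSupport φ →
    ∫ x, u x * ((-1) ^ (n / 2) * (Laplacian.laplacian^[n / 2] φ) x) =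
      ∫ x, Real.exp (n * u x) * ‖x‖ ^ ((n : ℝ) * α) * φ x
  odd : Odd n → Integrable (fun x => |u x| * (1 + ‖x‖ ^ (2 * n))⁻¹) ∧ ∀ φ : 𝓢(E n, ℂ),
    Integrable (fun x => (u x : ℂ) * FL n φ x) ∧
    ∫ x, (u x : ℂ) * FL n φ x =
      ∫ x, ((Real.exp (n * u x) * ‖x‖ ^ ((n : ℝ) * α) : ℝ) : ℂ) * φ x

/-- QC12. Full positive answer to Q1. -/
def S_FULL : Prop :=
  ∀ (n : ℕ) (α Λ : ℝ) (p : MvPolynomial (Fin n) ℝ), 3 ≤ n → -1 < α → 0 < Λ →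
    Λ < Lam1 n * min 1 (1 + α) → p.totalDegree ≤ n - 1 →
    Tendsto (pv p) (cocompact (E n)) atBot →
    ∃ (u : E n → ℝ) (C : ℝ), IsSol n α u ∧
      Integrable (fun x => Real.exp (n * u x) * ‖x‖ ^ ((n : ℝ) * α)) ∧
      ∫ x, Real.exp (n * u x) * ‖x‖ ^ ((n : ℝ) * α) = Λ ∧
      Tendsto (fun x => u x - pv p x + 2 * Λ / Lam1 n * Real.log ‖x‖) (cocompact (E n)) (𝓝 C)

end

end Pool.Agent.E8helper19.QC
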